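import Mathlib
import Pool.Agent.Helper967.RD9

set_option autoImplicit false

/-! J. Robinson's problem: the ring of integers of every field of totally real algebraic numbers has
an undecidable first-order theory. -/

namespace Pool.Agent.Results.MP_bd783f_lc.AllUndecidable

open Pool.Agent.Helper967.TR

/-- For every field `K` with `ℚ ⊆ K ⊆ ℚ^tr`, of finite or infinite degree over `ℚ`, the first-order
theory of its ring of integers in the language of rings is undecidable. -/
theorem result (K : IntermediateField ℚ Qtr) : ¬ DecidableTheory (NumberField.RingOfIntegers K) :=
  Pool.Agent.Helper967.RD.all_undecidable K

end Pool.Agent.Results.MP_bd783f_lc.AllUndecidable
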